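import Mathlib
import Pool.Agent.Q147.QTwo
import Pool.Agent.Q147.QPos

namespace Pool.Agent.Results.MP_76989b_gt.BothQuestions

open Set Filter Topology Pool.Agent.Q147.QFun Pool.Agent.Q147.QSel Pool.Agent.Q147.QPos

universe u

/-- Q1: in ZFC there is a Hausdorff space with `S₁(Ωˢ,Γˢ)` (even in the indexed form) and a point
`f` of `Q_p(X,ℝ)` at which the Fréchet-Urysohn property fails. Q2: for Hausdorff open Whyburn
spaces `S₁(Ωˢ,Γˢ)` implies the Fréchet-Urysohn property at all points. -/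
theorem result :
    (∃ (X : Type) (_ : TopologicalSpace X), T2Space X ∧ SOneIdx X ∧ SOne X ∧
      ∃ f : Qp X, ¬ FUAt f) ∧
    (∀ (X : Type u) [TopologicalSpace X] [T2Space X], OpenWhyburn X → SOne X →
      ∀ f : Qp X, FUAt f) := by
  refine ⟨⟨Pool.Agent.Q147.QTwo.X, inferInstance, inferInstance, Pool.Agent.Q147.QTwo.sOneIdx,
    Pool.Agent.Q147.QTwo.sOneIdx.sOne, Pool.Agent.Q147.QTwo.not_fu⟩, ?_⟩
  intro X _ _ hX hS f
  exact Pool.Agent.Q147.QPos.main hX hS f

end Pool.Agent.Results.MP_76989b_gt.BothQuestions
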